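import Pool.Agent.MP_a25fb7_an.Mg.Sob

set_option autoImplicit false
open MeasureTheory

namespace Pool.Agent.Results.MP_a25fb7_an.Uncentered

/-- `g` is a weak gradient of `f`: integration by parts against all test functions -/
def IsWeakGrad {d : ℕ} (f : EuclideanSpace ℝ (Fin d) → ℝ)
    (g : EuclideanSpace ℝ (Fin d) → EuclideanSpace ℝ (Fin d)) : Prop :=
  ∀ φ : EuclideanSpace ℝ (Fin d) → ℝ, ContDiff ℝ (⊤ : ℕ∞) φ → HasCompactSupport φ →
    ∀ v : EuclideanSpace ℝ (Fin d),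
      ∫ x, f x * fderiv ℝ φ x v = - ∫ x, φ x * inner ℝ (g x) v

/-- the uncentered fractional maximal function: supremum over all open balls that contain `x` -/
noncomputable def uncMax {d : ℕ} (β : ℝ) (f : EuclideanSpace ℝ (Fin d) → ℝ)
    (x : EuclideanSpace ℝ (Fin d)) : ENNReal :=
  ⨆ z : EuclideanSpace ℝ (Fin d), ⨆ r : ℝ, ⨆ (_ : x ∈ Metric.ball z r),
    (volume (Metric.ball z r) ^ (1 - β / (d : ℝ)))⁻¹ * ∫⁻ y in Metric.ball z r, ‖f y‖ₑ

/-- Endpoint Sobolev bound for the uncentered fractional maximal function, `d ≥ 2`, `0 ≤ β < 1`. -/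
theorem result :
    ∀ d : ℕ, 2 ≤ d → ∀ β : ℝ, 0 ≤ β → β < 1 →
    ∃ C : ℝ, 0 ≤ C ∧
    ∀ f : EuclideanSpace ℝ (Fin d) → ℝ,
    ∀ g : EuclideanSpace ℝ (Fin d) → EuclideanSpace ℝ (Fin d),
      Integrable f volume → Integrable g volume → IsWeakGrad f g →
      (∀ᵐ x ∂(volume : Measure (EuclideanSpace ℝ (Fin d))), uncMax β f x < ⊤) ∧
      LocallyIntegrable (fun x => (uncMax β f x).toReal) volume ∧
      ∃ G : EuclideanSpace ℝ (Fin d) → EuclideanSpace ℝ (Fin d),
        LocallyIntegrable G volume ∧ IsWeakGrad (fun x => (uncMax β f x).toReal) G ∧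
        eLpNorm G (ENNReal.ofReal ((d : ℝ) / ((d : ℝ) - β))) volume ≤
          ENNReal.ofReal C * eLpNorm g 1 volume := by
  intro d hd β hβ0 hβ1
  have hd' : (2 : ℝ) ≤ d := by exact_mod_cast hd
  have h1 : β / d ≤ 1 / 2 := by rw [div_le_iff₀ (by linarith)]; linarith
  have h2 : 0 ≤ β / d := by positivity
  obtain ⟨C, hC, h⟩ := Pool.Agent.MP_a25fb7_an.main_meas
    (volume : Measure (EuclideanSpace ℝ (Fin d))) (s := 1 - β / d) (by linarith) (by linarith)
    (by simp; omega)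
  refine ⟨C.toReal, ENNReal.toReal_nonneg, fun f g hf hg hw => ?_⟩
  have e1 := hf.1.ae_eq_mk
  have e2 := hg.1.ae_eq_mk
  have e3 : uncMax β f =
      Pool.Agent.MP_a25fb7_an.Mb volume (1 - β / d) fun y => ‖hf.1.mk f y‖ₑ := by
    funext x
    refine iSup_congr fun z => iSup_congr fun r => iSup_congr fun _ => ?_
    congr 1
    refine lintegral_congr_ae (ae_restrict_of_ae ?_)
    filter_upwards [e1] with y hy
    rw [hy]
  have e4 : (d : ℝ) / (d - β) = (1 - β / d)⁻¹ := by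
    have : (d : ℝ) - β ≠ 0 := by linarith
    field_simp
  rw [e3, e4, ENNReal.ofReal_toReal hC, eLpNorm_congr_ae e2]
  refine h _ _ hf.1.stronglyMeasurable_mk.measurable hg.1.stronglyMeasurable_mk.measurable
    (hf.congr e1) (hg.congr e2) fun φ hφ hc v => ?_
  have a1 : ∫ x, f x * fderiv ℝ φ x v = ∫ x, hf.1.mk f x * fderiv ℝ φ x v :=
    integral_congr_ae (by filter_upwards [e1] with x hx; rw [← hx])
  have a2 : ∫ x, φ x * inner ℝ (g x) v = ∫ x, φ x * inner ℝ (hg.1.mk g x) v :=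
    integral_congr_ae (by filter_upwards [e2] with x hx; rw [← hx])
  rw [← a1, ← a2]
  exact hw φ hφ hc v

end Pool.Agent.Results.MP_a25fb7_an.Uncentered
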